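import Mathlib
import Pool.Agent.H402.VMTLTwo

set_option autoImplicit false
open SimpleGraph

namespace Pool.Agent.Results.MP_29e935_co.TwoCycleFactor

/-- (1) Let `G` be a `2r`-regular graph containing a spanning subgraph `H` isomorphic to the disjoint
union of the cycles `C_m` and `C_n`, `m, n ≥ 3`, `m + n` odd, `{m, n} ≠ {3, 4}`. Then `G` has a vertex-magic
total labelling in which the edges get the labels `1, ..., |E|` and the vertices the labels
`|E| + 1, ..., |E| + |V|`.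
(2) Every graph isomorphic to the disjoint union of `C_3` and `C_4` has a vertex-magic total labelling. -/
theorem result :
    (∀ (V : Type) [Fintype V] [DecidableEq V] (G : SimpleGraph V) [DecidableRel G.Adj] (r : ℕ),
      G.IsRegularOfDegree (2 * r) →
      ∀ (H : SimpleGraph V), H ≤ G →
      ∀ m n : ℕ, 3 ≤ m → 3 ≤ n → Odd (m + n) → ¬ ((m = 3 ∧ n = 4) ∨ (m = 4 ∧ n = 3)) →
      Nonempty (H ≃g (cycleGraph m ⊕g cycleGraph n)) →
      ∃ (h : V → ℕ) (g : Sym2 V → ℕ) (k : ℕ),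
        Function.Injective h ∧ Set.InjOn g G.edgeSet ∧
        (∀ v, Fintype.card G.edgeSet + 1 ≤ h v ∧
          h v ≤ Fintype.card V + Fintype.card G.edgeSet) ∧
        (∀ e ∈ G.edgeSet, 1 ≤ g e ∧ g e ≤ Fintype.card G.edgeSet) ∧
        ∀ v, h v + ∑ w ∈ G.neighborFinset v, g s(v, w) = k) ∧
    (∀ (V : Type) [Fintype V] [DecidableEq V] (G : SimpleGraph V) [DecidableRel G.Adj],
      Nonempty (G ≃g (cycleGraph 3 ⊕g cycleGraph 4)) →
      ∃ (h : V → ℕ) (g : Sym2 V → ℕ) (k : ℕ),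
        Function.Injective h ∧ Set.InjOn g G.edgeSet ∧
        (∀ v, ∀ e ∈ G.edgeSet, h v ≠ g e) ∧
        (∀ v, 1 ≤ h v ∧ h v ≤ Fintype.card V + Fintype.card G.edgeSet) ∧
        (∀ e ∈ G.edgeSet, 1 ≤ g e ∧ g e ≤ Fintype.card V + Fintype.card G.edgeSet) ∧
        ∀ v, h v + ∑ w ∈ G.neighborFinset v, g s(v, w) = k) := by
  refine ⟨?_, ?_⟩
  · rintro V _ _ G _ r hG H hH m n hm hn hodd hex ⟨e⟩
    exact Pool.Agent.H402.VMTL.main V G r hG H hH m n hm hn hodd hex e
  · rintro V _ _ G _ ⟨e⟩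
    exact Pool.Agent.H402.VMTL.c3c4' V G e

end Pool.Agent.Results.MP_29e935_co.TwoCycleFactor
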